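import Pool.Agent.TH771.LH.Main
import Pool.Agent.H591R3.PHG.Sig

/-!
# The refined low and high hierarchies relative to all oracles near a random oracle

An adversary who knows the random oracle `O` changes, for all large `n`, at most `g n` of the
strings of length at most `n`; the result is the oracle `A` (`Close g O A`).

(1) If for every `ε > 0` there are infinitely many `n` with `g n ≤ ε log log n` then, for almost
every `O` and every such `A`, the inclusion of `L₁` in `L̂₂` is proper relative to `A`, and a tally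
set in `NP` shows it.

(2) Otherwise every oracle `O` (and not only almost every one) has such an `A` relative to which
all tally sets in `NP` are in `L₁`, so that tally sets do not show that the inclusion is proper.

(3) If for every `ε > 0` there are infinitely many `n` with `g n ≤ 2 ^ (n ^ ε)` then, for almost
every `O` and every such `A`, the polynomial hierarchy is infinite relative to `A`.

(4) Otherwise every oracle `O` has such an `A` relative to which all classes `L_k`, `L̂_k`, `H_k`,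
`Ĥ_k` are equal to `NP`, and another one relative to which `L̂₁` is a proper subclass of `L₁`, and
`L₁` and all the classes with `k ≥ 2` are equal to `NP`.

So, between `log log n` and `2 ^ (n ^ ε)` changes, the hypothesis of the question (the polynomial
hierarchy is infinite) always holds, but the tally sets can be removed from the difference.

The proof of (1): `NE` is not closed under complement relative to `A` (`TH771/CX`), so some tally
set in `NP` has its complement outside of `NP` (`TH771/LH/Tally.lean`); tally sets in `NP` are in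
`L̂₂`, and `L₁` is `NP ∩ coNP`.
-/

set_option autoImplicit false

namespace Pool.Agent.Results.MP_a76659_lc.ChangedStrings

open Pool.Agent.NPC Pool.Agent.H620R2.Gauge Pool.Agent.H622R2.Exp Pool.Agent.H591R3.PHG
open Pool.Agent.H490R3.LH (Low LowD High HighD Sig Del sig_iff)
open Pool.Agent.TH680.LHD (AllNP RIsNP)
open Pool.Agent.W900.CH (Close)
open Pool.Agent.H628R3.RO (randomOracle)
open Pool.Agent.TH771.LH (Tally)
open MeasureTheory Filter

theorem result (g : ℕ → ℝ) :
    ((∀ ε : ℝ, 0 < ε → ∃ᶠ n : ℕ in atTop, g n ≤ ε * Real.logb 2 (Real.logb 2 n)) →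
      ∀ᵐ O ∂randomOracle, ∀ A : Oracle, Close g O A →
        Low A 1 ⊂ LowD A 2 ∧ ∃ T, Tally T ∧ T ∈ LowD A 2 ∧ T ∉ Low A 1) ∧
    ((¬ ∀ ε : ℝ, 0 < ε → ∃ᶠ n : ℕ in atTop, g n ≤ ε * Real.logb 2 (Real.logb 2 n)) →
      ∀ O : Oracle, ∃ A : Oracle, Close g O A ∧ ∀ T, Tally T → RIsNP A T → T ∈ Low A 1) ∧
    ((∀ ε : ℝ, 0 < ε → ∃ᶠ n : ℕ in atTop, g n ≤ 2 ^ (n : ℝ) ^ ε) →
      ∀ᵐ O ∂randomOracle, ∀ A : Oracle, Close g O A →
        ∀ k : ℕ, ∃ L, Sig A (k + 1) L ∧ ¬ Sig A k L) ∧
    ((¬ ∀ ε : ℝ, 0 < ε → ∃ᶠ n : ℕ in atTop, g n ≤ 2 ^ (n : ℝ) ^ ε) →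
      ∀ O : Oracle, (∃ A : Oracle, Close g O A ∧ ∀ k, AllNP A k) ∧
        ∃ A : Oracle, Close g O A ∧ (∀ k, 2 ≤ k → AllNP A k) ∧
          Low A 1 = {T | RIsNP A T} ∧ LowD A 1 ⊂ Low A 1) := by
  refine ⟨fun hg => ?_, fun hg O => ?_, fun hg => ?_, fun hg O => ⟨?_, ?_⟩⟩
  · filter_upwards [Pool.Agent.TH771.CX.ae_far_NE hg] with O hO A hA
    exact Pool.Agent.TH771.LH.tally_of_hit2 (hO A hA)
  · push Not at hg
    obtain ⟨ε, hε, h⟩ := hg
    obtain ⟨A, h1, h2⟩ := Pool.Agent.TH771.CX.exists_close_NE hε h O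
    exact ⟨A, h1, fun T hT hN => Pool.Agent.TH771.LH.tally_low h2 hT hN⟩
  · have h1 : ∀ᵐ O ∂randomOracle, ∀ A, Close g O A →
        A ∉ {A : Oracle | ∃ k, ∀ L, IsSig A (k + 1) L → IsSigPoly A k L} := by
      refine Pool.Agent.W900.CH.ae_far_P (fun f hf => ?_) hg
      refine null_of_frequently2 f hf _ fun A hA => ?_
      obtain ⟨k, hk⟩ := hA
      exact ⟨k, hk _ (lang_sig A k)⟩
    filter_upwards [h1] with O h2 A hA k
    by_contra hcon
    push Not at hcon
    refine h2 A hA ⟨k, fun L hL => ?_⟩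
    have h3 : Pool.Agent.H620R2.Gauge.IsSigma A (k + 1) L := hL
    have h4 : IsSig A k L := (sig_iff _ _ _).1 (hcon L ((sig_iff _ _ _).2 h3))
    exact h4.isSigPoly
  · obtain ⟨A, hA, h1⟩ := Pool.Agent.W900.CH.exists_close_PSPACE hg O
    exact ⟨A, hA, Pool.Agent.TH771.LH.all_of_P fun L hL => isP_of_reduces (h1 L hL)⟩
  · obtain ⟨A, hA, h1, L, h2, h3⟩ := Pool.Agent.W900.CH.exists_close_ZPP hg O
    obtain ⟨h4, h5⟩ := Pool.Agent.TH771.LH.all_of_NP fun L hL => (h1 L (Or.inr hL)).isNP
    refine ⟨A, hA, h4, h5, ?_⟩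
    have h6 := h2.isNP
    have h7 := (h1 Lᶜ (Or.inr h6.isPSPACE.compl)).isNP
    exact Pool.Agent.H490R3.LH.low_one Pool.Agent.H490R3.LH.p_C1 Pool.Agent.H490R3.LH.p_SB
      Pool.Agent.H490R3.LH.t_SJ Pool.Agent.H490R3.LH.p_INC A L
      (Pool.Agent.TH680.LHD.isNP_iff.2 h6) (Pool.Agent.TH680.LHD.isNP_iff.2 h7)
      (fun h8 => h3 (Pool.Agent.TH680.LHD.isP_iff.1 h8))

end Pool.Agent.Results.MP_a76659_lc.ChangedStrings
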