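import Pool.Agent.TH654.RB.Tasks2
import Pool.Agent.TH680.LHD.Lev
import Pool.Agent.TH678.PC.Am
import Pool.Agent.TH678.PC.Adv3

/-!
# How many strings of an oracle must be changed to separate the levels of the refined low
hierarchy?

An adversary who knows the oracle `O` changes, for all large `n`, at most `g n` of the strings of
length at most `n`; the result is the oracle `A` (`Close g O A`).

* There is an oracle `O` such that, whenever `g` is polynomially bounded, relative to ALL these
  oracles `A` all classes `L_k`, `L̂_k`, `H_k`, `Ĥ_k` with `k ≥ 2` are equal to `NP`. So no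
  polynomial number of changes of `O` separates any two levels above the first.
* For every `g` tending to infinity, however slowly, every oracle `O` can be changed in this way
  into an oracle `A` with `L_1 ≠ NP`, and the oracle `O` above can be changed in this way into an
  oracle `A` such that `L_1` is a proper subclass of `L̂_2`.
* If `g` does not tend to infinity, all classes `L_k`, `L̂_k`, `H_k`, `Ĥ_k` relative to `A` are
  equal to those relative to `O`.
-/

set_option autoImplicit false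

namespace Pool.Agent.Results.MP_a76659_lc.ChangesOfEveryOracle

open Pool.Agent.NPC Pool.Agent.H490R3.LH Pool.Agent.TH680.LHD Filter
open Pool.Agent.H620R2 (Gauge.Oracle Gauge.IsNP Gauge.IsP Gauge.IsPSPACE)
open Pool.Agent.W900.CH (Close)
open Pool.Agent.H583R2.S2 (chr)

/-- `P^NP` is `Δ_2` -/
theorem del_of_pnp {A : Gauge.Oracle} {L : Set (List Bool)}
    (h : Pool.Agent.TH678.PN.IsPNP A L) : Del A 2 L := by
  obtain ⟨C, hC, hL⟩ := h
  refine ⟨{y | C y = true}, sig_one.2 hC, ?_⟩
  rw [SB_chr]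
  exact isP_iff.2 hL

/-- if `L_1 = NP` then `NP = coNP` -/
theorem conp_of_low {A : Gauge.Oracle} {L : Set (List Bool)} (h : L ∈ Low A 1) :
    Gauge.IsNP A Lᶜ := by
  refine sig_one.1 (h.2 Lᶜ ?_)
  rw [p_SB.2.1]
  exact (p_SB.1 _ _ (t_SJ A L).2.2.1).2

/-- a set of strings that differ finitely -/
theorem same_of_finite {O A : Gauge.Oracle} (h : {y : List Bool | A y ≠ O y}.Finite) :
    SameAll A O := by
  classical
  refine same_all (E := fun x => decide (x ∈ h.toFinset.toList))
    ((Poly.decide_mem NPC.Poly.id (NPC.Poly.const h.toFinset.toList)).congr fun _ =>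
      decide_eq_decide.2 Iff.rfl) fun x => ?_
  by_cases hx : A x = O x
  · simp [hx]
  · simp only [Finset.mem_toList, Set.Finite.mem_toFinset, Set.mem_setOf_eq, ne_eq, hx,
      not_false_eq_true, decide_true, Bool.xor_true]
    revert hx
    cases A x <;> cases O x <;> simp

theorem result :
    (∃ O : Gauge.Oracle, ∀ g : ℕ → ℝ,
      ((∃ c : ℕ, ∀ᶠ n : ℕ in atTop, ∃ m ≥ n, g m ≤ (n : ℝ) ^ c) →
        ∀ A, Close g O A → ∀ k, 2 ≤ k → AllNP A k) ∧
      (Tendsto g atTop atTop → ∃ A, Close g O A ∧ Low A 1 ⊂ LowD A 2)) ∧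
    (∀ g : ℕ → ℝ, Tendsto g atTop atTop → ∀ O : Gauge.Oracle,
      ∃ A, Close g O A ∧ Low A 1 ≠ {L | RIsNP A L}) ∧
    (∀ g : ℕ → ℝ, ¬ Tendsto g atTop atTop → ∀ O A : Gauge.Oracle, Close g O A → SameAll A O) := by
  refine ⟨?_, fun g hg O => ?_, fun g hg O A hA =>
    same_of_finite (Pool.Agent.TH678.PC.finite_of_close hg hA)⟩
  · obtain ⟨O, hO⟩ := Pool.Agent.TH654.RB.exists_robust2
    have hall : ∀ g : ℕ → ℝ, (∃ c : ℕ, ∀ᶠ n : ℕ in atTop, ∃ m ≥ n, g m ≤ (n : ℝ) ^ c) →
        ∀ A, Close g O A → ∀ k, 2 ≤ k → AllNP A k := fun g hg A hA k hk =>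
      allNP (j := 2) (fun L hL =>
        del_of_pnp ((hO A (Pool.Agent.TH678.PC.dist_poly hg hA)).1 L hL)) hk
    refine ⟨O, fun g => ⟨hall g, fun hg => ?_⟩⟩
    obtain ⟨g', hg'⟩ : ∃ g' : ℕ → ℝ, g' = fun n => min (g n) n := ⟨_, rfl⟩
    have h1 : Tendsto g' atTop atTop := by
      rw [hg']
      exact tendsto_atTop_mono' atTop (Eventually.of_forall fun n => le_rfl)
        (tendsto_atTop_atTop.2 fun b => by
          obtain ⟨i, hi⟩ := tendsto_atTop_atTop.1 hg b
          obtain ⟨j, hj⟩ := exists_nat_ge b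
          exact ⟨max i j, fun a ha => le_min (hi a (le_trans (le_max_left _ _) ha))
            (hj.trans (by exact_mod_cast le_trans (le_max_right _ _) ha))⟩)
    obtain ⟨A, hA, ⟨L, hL, hLc⟩, -⟩ := Pool.Agent.TH678.PC.exists_proper h1 O
    have h2 : ∀ k, 2 ≤ k → AllNP A k := hall g' ⟨1, by
      filter_upwards with n
      exact ⟨n, le_rfl, by rw [hg', pow_one]; exact min_le_right _ _⟩⟩ A hA
    refine ⟨A, ?_, (p_INC A 1).1, fun hcon => hLc (conp_of_low (hcon ?_))⟩
    · unfold Close at hA ⊢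
      filter_upwards [hA] with n hn
      exact hn.trans (by rw [hg']; exact min_le_left _ _)
    · rw [(h2 2 le_rfl).2.1]
      exact isNP_iff.2 hL
  · obtain ⟨A, hA, ⟨L, hL, hLc⟩, -⟩ := Pool.Agent.TH678.PC.exists_proper hg O
    refine ⟨A, hA, fun hcon => hLc (conp_of_low ?_)⟩
    rw [hcon]
    exact isNP_iff.2 hL

end Pool.Agent.Results.MP_a76659_lc.ChangesOfEveryOracle
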