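import Pool.Agent.TH680.LHD.Lev

/-!
# The refined low and high hierarchies in `NP` relative to random oracles of arbitrary densities

The strings `x` are put into the oracle `A` independently, with a probability `q |x|` that depends on
the length only, where `q` is an arbitrary function (`rand q` is the distribution of `A`). Let
`rare q n = 2 ^ n * min (q n) (1 - q n)`, the expected number of the strings of length `n` for which
`A` has the less probable value. All classes are relative to the oracle `Q ⊕ A`.

(1) If the series `∑ rare q` diverges then, for every oracle `Q` and almost all `A`, the inclusion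
`L₁ ⊆ L̂₂` is proper.

(2) If `rare q` is not bounded by a polynomial then, for every oracle `Q` and almost all `A`, the
polynomial hierarchy is infinite (and the inclusion is proper, by (1)).

(3) If `rare q` is bounded by a polynomial then, for some oracle `Q` and almost all `A`, all the
classes `L_k`, `L̂_k`, `H_k`, `Ĥ_k` with `k ≥ 2` are equal to `NP`. (So, if the series diverges,
`L₁ ≠ L̂₂` although the hierarchy collapses.)

(4) If the series converges then, for some oracle `Q` and almost all `A`, all the classes with
`k ≥ 0` are equal to `NP`.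

(5) If the series converges then, for every `Q` and almost all `A`, the classes relative to `Q ⊕ A`
are those relative to `Q ⊕ common q`, where `common q` is the set of the strings with `q > 1 / 2`:
the random oracle does not matter.

So `L₁ = L̂₂` can be forced, by a suitable `Q`, if and only if the series converges, and the
collapse of the levels `k ≥ 2` if and only if `rare q` is bounded by a polynomial.

The proof of (1): there is a tally set in `NP` whose complement is not in `NP` (the law of
`TH680.SE` and `TH680.ND`); tally sets in `NP` are in `L̂₂`, and sets in `L₁` have complements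
in `NP`.

The proof of (3): there is an oracle `Q` which contains the results of all computations in
polynomial space relative to `Q ⊕ common q` with finitely many changes. The positions of the rare
strings can be read from a tally set in `NP` (as in `TH680.ND`), and the list of the rare strings
reduces questions in `PSPACE` relative to `Q ⊕ A` to questions to `Q`. So `PSPACE` is `Δ₂`
relative to `Q ⊕ A`.

The definitions of the classes are those of helper490 (`H490R3.LH`, with helpers of that round).
-/

set_option autoImplicit false

namespace Pool.Agent.Results.MP_a76659_lc.DensityThreshold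

open MeasureTheory Pool.Agent.NPC Pool.Agent.H490R3.LH
open Pool.Agent.H620R2.Gauge (Oracle)
open Pool.Agent.W900.IE (indep)
open Pool.Agent.TH680.LHD (AllNP SameAll)

/-- The distribution of the random oracle: the strings `x` are in the oracle with probability
`q |x|`, independently. -/
noncomputable def rand (q : ℕ → unitInterval) : Measure Oracle := indep (fun x => q x.length)

/-- The expected number of the strings of length `n` for which the random oracle has the less
probable value. -/
noncomputable def rare (q : ℕ → unitInterval) (n : ℕ) : ℝ := 2 ^ n * min (q n : ℝ) (1 - q n)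

/-- The function `rare q` is bounded by a polynomial. -/
def Bounded (q : ℕ → unitInterval) : Prop := ∃ c : ℕ, ∀ n : ℕ, rare q n ≤ (n : ℝ) ^ c + c

/-- The oracle of the more probable values. -/
noncomputable def common (q : ℕ → unitInterval) : Oracle := fun x =>
  decide ((1 / 2 : ℝ) < q x.length)

/-- The disjoint union of the oracles `Q` and `A`. -/
def join2 (Q A : Oracle) : Oracle
  | [] => false
  | false :: z => Q z
  | true :: z => A z

theorem join_eq : TH680.OD.join = join2 := by
  funext Q A x
  rcases x with _ | ⟨b, z⟩
  · rfl
  · cases b <;> rfl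

theorem dev_eq (q : ℕ → unitInterval) : W900.IE.dev (TH680.DT.pq q) = rare q := by
  funext n
  unfold W900.IE.dev TH680.DT.pq rare
  have h : ∀ v : Fin n → Bool, min (q (List.ofFn v).length : ℝ) (1 - q (List.ofFn v).length) =
      min (q n : ℝ) (1 - q n) := fun v => by rw [List.length_ofFn]
  rw [Finset.sum_congr rfl fun v _ => h v, Finset.sum_const, nsmul_eq_mul, Finset.card_univ]
  simp

theorem poly_join {E : List Bool → Bool} (hE : Poly E) (b : Bool) :
    Poly (fun x : List Bool => decide (x.head? = some b) && E x.tail) :=
  Poly.and (Poly.decide_eq (Poly.head? Poly.id) (NPC.Poly.const _)) (hE.comp (Poly.tail Poly.id))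

theorem join_xor (Q : Oracle) {A D : Oracle} {E : List Bool → Bool}
    (h : ∀ x, D x = (A x ^^ E x)) (x : List Bool) :
    join2 Q D x = (join2 Q A x ^^ (decide (x.head? = some true) && E x.tail)) := by
  rcases x with _ | ⟨b, z⟩
  · rfl
  · cases b with
    | false => simp [join2]
    | true =>
      show D z = _
      rw [h]
      simp [join2]

theorem same (q : ℕ → unitInterval) (h : Summable (rare q)) (Q : Oracle) :
    ∀ᵐ A ∂(rand q), SameAll (join2 Q A) (join2 Q (common q)) := by
  rw [← dev_eq] at h
  filter_upwards [TH680.DT.ae_same h] with A hA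
  have hx : ∀ x, common q x = (A x ^^ (A x ^^ common q x)) := fun x => by
    cases A x <;> cases common q x <;> rfl
  exact TH680.LHD.same_all (poly_join hA true) (join_xor Q hx)

/-- **The refined low and high hierarchies relative to random oracles of arbitrary densities.** -/
theorem result (q : ℕ → unitInterval) :
    (¬ Summable (rare q) → ∀ Q : Oracle, ∀ᵐ A ∂(rand q),
      Low (join2 Q A) 1 ⊂ LowD (join2 Q A) 2) ∧
    (¬ Bounded q → ∀ Q : Oracle, ∀ᵐ A ∂(rand q),
      ∀ k, ∃ L, Sig (join2 Q A) (k + 1) L ∧ ¬ Sig (join2 Q A) k L) ∧
    (Bounded q → ∃ Q : Oracle, ∀ᵐ A ∂(rand q), ∀ k, 2 ≤ k → AllNP (join2 Q A) k) ∧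
    (Summable (rare q) → ∃ Q : Oracle, ∀ᵐ A ∂(rand q), ∀ k, AllNP (join2 Q A) k) ∧
    (Summable (rare q) → ∀ Q : Oracle, ∀ᵐ A ∂(rand q),
      SameAll (join2 Q A) (join2 Q (common q))) := by
  have hC : ∀ x y : List Bool, x.length = y.length → TH680.ND.cm q x = TH680.ND.cm q y :=
    fun x y hxy => by
      unfold TH680.ND.cm
      rw [hxy]
  refine ⟨fun h Q => ?_, fun h Q => ?_, fun h => ?_, fun h => ?_, same q⟩
  · have h1 := TH680.LHD.ae_tally (q := q) h Q
    rw [join_eq] at h1
    filter_upwards [h1] with A hA
    obtain ⟨T, h2, h3, h4⟩ := hA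
    exact TH680.LHD.low_ssubset h2 h3 h4
  · have h0 : ¬ ∃ c : ℕ, ∀ n, W900.IE.dev (TH680.DT.pq q) n ≤ (n : ℝ) ^ c + c := by
      rw [dev_eq]
      exact h
    have h1 := TH680.OD.ae_infinite h0 Q
    rw [join_eq] at h1
    filter_upwards [h1] with A hA k
    obtain ⟨L, h2, h3⟩ := hA k
    exact ⟨L, (sig_iff _ _ _).2 h2, fun h4 => h3 ((sig_iff _ _ _).1 h4)⟩
  · obtain ⟨c, hc⟩ := h
    obtain ⟨Q, hQ, hK⟩ := TH680.LHD.exists_above3 hC
    refine ⟨Q, ?_⟩
    have h1 := TH680.ND.ae_pair hc hQ
    filter_upwards [h1] with A hA k hk
    obtain ⟨N₀, hA⟩ := hA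
    refine TH680.LHD.allNP (j := 2) (fun L hL => ?_) hk
    classical
    set T : Set (List Bool) := TH680.ND.tl (2 * c + 2) N₀ true (TH680.OD.join Q A) with hT
    rw [← join_eq] at hL ⊢
    have h2 := TH680.LHD.hard_psp hQ hK (t := 2 * c + 2) (N₀ := N₀)
      (S := fun x => decide (x ∈ T)) (fun x hx => decide_eq_true hx)
      (fun x hx => decide_eq_false fun h => hA x h hx) hL
    refine ⟨_, TH680.LHD.isNP_join (TH680.LHD.isNP_iff.2
      (TH680.ND.isNP_tl (2 * c + 2) N₀ true (TH680.OD.join Q A))), ?_⟩
    rw [TH680.LHD.chr_join]
    refine TH680.LHD.isP_iff.2 ?_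
    have h3 : TH680.OD.join (TH680.OD.join Q A) (fun x => decide (x ∈ T)) =
        Pool.Agent.H490R3.LH.join (TH680.OD.join Q A) T := by
      funext x
      rcases x with _ | ⟨b, z⟩
      · rfl
      · cases b with
        | false => rfl
        | true =>
          show decide (z ∈ T) = Pool.Agent.H583R2.S2.chr T z
          unfold Pool.Agent.H583R2.S2.chr
          rw [Bool.eq_iff_iff]
    rw [← h3]
    exact h2
  · obtain ⟨Q, hQ, hP⟩ := TH680.ND.exists_above2 hC
    refine ⟨Q, ?_⟩
    rw [← dev_eq] at h
    filter_upwards [TH680.DT.ae_same h] with A hA k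
    have hx : ∀ x, common q x = (A x ^^ (A x ^^ common q x)) := fun x => by
      cases A x <;> cases common q x <;> rfl
    refine TH680.LHD.allNP (j := 0) (fun L hL => ?_) (Nat.zero_le k)
    rw [TH680.DT.same_isPSPACE (poly_join hA true) (join_xor Q hx)] at hL
    rw [← join_eq] at hL
    obtain ⟨V, hV, h1⟩ := hP L hL
    refine TH680.LHD.isP_iff.2 ⟨V, ?_, h1⟩
    rw [TH680.DT.same_isFP (poly_join hA true) (join_xor Q hx), ← join_eq]
    exact hV

end Pool.Agent.Results.MP_a76659_lc.DensityThreshold
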