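import Pool.Agent.TH682.LO.Fin

/-!
# Group languages and the refined low hierarchy

Polynomial time is Mathlib's `Turing.TM2ComputableInPolyTime`, for functions on bit strings.
`LowOne` and `LowHatTwo` are the classes `L_1` and `L̂_2`.

A group language is a set `G` of permutations (of finitely many points, each permutation coded by the
list of its values) such that for every `N` the members of `G` that are permutations of `N` points
form a subgroup of the symmetric group (`GroupLang`). The groups are arbitrary.

Theorem. Let `G` be a group language in `NP`, and let `A` be a set in `NP` such that the complement
of `A` is in `NP^G` (for example `A = G`, or any set in `NP` which has a Cook reduction to `G`, or any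
set in `NP` with complement in `NP`). Then `A` is in `L̂_2`, that is, `P^(NP^A) ⊆ P^NP`, and also
`P^(NP^A)[O(log n)] ⊆ P^NP[O(log n)]`. So `L_1 ⊊ L̂_2` if some set `A` of this kind is not in `coNP`.

For sparse sets `G` in `NP` (and `A = G`) this is due to Ko and Schöning (1985), and to Kadin (1989)
and Allender and Hemachandra (1992) for `O(log n)` queries. Sets in
`NP` with polynomial-size circuits, of which group languages in `NP` are a special case, are only
known to be in `L̂_3`.

Proof. A table for the degrees `N < m` is a list of members of `G` other than the identities such
that those of the same degree have different keys (first point which is not fixed, its image). A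
table has at most `m ^ 3` entries. If a table has the maximal number of entries, then membership in
`G` is decided by sifting: a member of `G` which is not sifted to the identity would give a longer
table. So sets in `NP^G` are in `NP`, given a complete table; hence this holds for the queries to `A`
with answer no, and for all sets `B` in `NP^A` (guess and verify the answers). The number of entries
of the complete tables is found by `O(log n)` queries to `NP`; then each query to `B` is replaced by
the question if there are a table with this number of entries and a certificate for the query, given
this table.
-/

set_option autoImplicit false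

namespace Pool.Agent.Results.MP_a76659_lc.GroupsAreLow

open Pool.Agent.NPC Pool.Agent.TH682.KD Pool.Agent.TH682.LO Pool.Agent.H660R2.NX

/-- **Group languages and the refined low hierarchy.** Let `G` be a group language in `NP`, and let
`A` be a set in `NP` whose complement is in `NP^G`. (1) `A` is in `L̂_2`. (2)
`P^(NP^A)[O(log n)]` is contained in `P^NP[O(log n)]`. (3) If `A` is not in `coNP` then `L_1` and
`L̂_2` are different. In particular (4) all group languages in `NP` are in `L̂_2`. -/
theorem result :
    (∀ G A : Set (List Bool), GroupLang G → InNP G → InNP A → InNPT G Aᶜ →
      A ∈ LowHatTwo ∧ (∀ L, InPNPTLog A L → InPNPLog L) ∧ (¬ InNP Aᶜ → LowOne ≠ LowHatTwo)) ∧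
    (∀ G : Set (List Bool), GroupLang G → InNP G → G ∈ LowHatTwo) := by
  have key : ∀ G A : Set (List Bool), GroupLang G → InNP G → InNP A → InNPT G Aᶜ →
      A ∈ LowHatTwo := fun G A hG hGN hA hAc => ⟨hA, fun L hL => low_two hG hGN hA hAc hL⟩
  refine ⟨fun G A hG hGN hA hAc => ⟨key G A hG hGN hA hAc, fun L hL => low_log hG hGN hA hAc hL,
    fun hn h => ?_⟩, fun G hG hGN => key G G hG hGN hGN (compl_self G)⟩
  have h1 : A ∈ LowOne := by
    rw [h]
    exact key G A hG hGN hA hAc
  exact hn (h1.2 _ (compl_self A))

end Pool.Agent.Results.MP_a76659_lc.GroupsAreLow
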